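import Pool.Agent.Q83.Rst.Main

/-! For every rational `a ∈ (-1, 1)` some root system of the point-restart Laplacian is a
Schauder basis of `L²((-π/2, π/2))`, in every enumeration (indeed a Riesz basis). -/

set_option autoImplicit false

open MeasureTheory Set Filter
open Pool.Agent.Q83.Rst

namespace Pool.Agent.Results.MP_1ebdda_an.RieszBasis

/-- A root system of `H`, enumerated by `ℕ`: the vectors are linearly independent and, for every
`μ`, those attached to `μ` span the root subspace of `μ`. -/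
structure IsRootSystem (a : ℝ) (ψ : ℕ → L2I) (lam : ℕ → ℂ) : Prop where
  indep : LinearIndependent ℂ ψ
  root : ∀ μ : ℂ, (Submodule.span ℂ (ψ '' {j | lam j = μ}) : Set L2I) = rootSpace a μ

theorem param (q : ℚ) (h1 : -1 < q) (h2 : q < 1) : ∃ r s : ℕ, 0 < r ∧ 0 < s ∧ Nat.Coprime r s ∧
    aa r s = (q : ℝ) := by
  set t : ℚ := (1 + q) / 2 with ht
  have ht0 : 0 < t := by rw [ht]; linarith
  have ht1 : t < 1 := by rw [ht]; linarith
  have hn0 : 0 < t.num := Rat.num_pos.2 ht0
  have hnd : t.num < t.den := by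
    have := Rat.num_div_den t
    have hd : (0 : ℚ) < t.den := by exact_mod_cast t.den_pos
    have h3 : (t.num : ℚ) / t.den < 1 := by rw [this]; exact ht1
    rw [div_lt_one hd] at h3
    exact_mod_cast h3
  obtain ⟨s, hs⟩ : ∃ s : ℕ, t.num = s := ⟨t.num.toNat, (Int.toNat_of_nonneg hn0.le).symm⟩
  have hs0 : 0 < s := by omega
  have hsd : s < t.den := by omega
  have hcop : Nat.Coprime s t.den := by
    have := t.reduced
    rwa [hs, Int.natAbs_natCast] at this
  refine ⟨t.den - s, s, by omega, hs0, ?_, ?_⟩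
  · rw [Nat.coprime_sub_self_left hsd.le]
    exact hcop.symm
  · have h3 : (q : ℝ) = 2 * (t : ℝ) - 1 := by
      have : q = 2 * t - 1 := by rw [ht]; ring
      exact_mod_cast this
    have h4 : (t : ℝ) = (s : ℝ) / t.den := by
      rw [Rat.cast_def, hs]
      push_cast
      rfl
    have hd : (t.den : ℝ) ≠ 0 := by exact_mod_cast t.den_pos.ne'
    unfold aa
    rw [h3, h4, Nat.cast_sub hsd.le]
    have : ((t.den : ℝ) - s + s) = t.den := by ring
    rw [this]
    field_simp
    ring

theorem result : ∀ q : ℚ, -1 < q → q < 1 → ∃ (ψ : ℕ → L2I) (lam : ℕ → ℂ),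
    IsRootSystem (q : ℝ) ψ lam ∧ (∀ σ : Equiv.Perm ℕ, IsSchauder (fun n => ψ (σ n))) ∧
      ∃ A B : ℝ, 0 < A ∧ TwoSided ψ A B := by
  classical
  intro q h1 h2
  obtain ⟨r, s, hr, hs, hc, haa⟩ := param q h1 h2
  obtain ⟨A, B, hA, hAB⟩ := two_sided hr hs hc
  obtain ⟨κ, k1, k2⟩ := exists_coef hAB hA (fun f hf => complete hr hs hc f hf)
  obtain ⟨hd⟩ := nonempty_denumerable (IX s)
  let e : ℕ ≃ IX s := (Denumerable.eqv (IX s)).symm
  have hind : LinearIndependent ℂ (Fam r s) := by
    rw [linearIndependent_iff']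
    intro t g hg i hi
    have h3 := congrArg (κ i) hg
    rw [map_sum, map_zero, Finset.sum_eq_single i] at h3
    · rw [map_smul, k1, if_pos rfl, smul_eq_mul, mul_one] at h3
      exact h3
    · intro j _ hj
      rw [map_smul, k1, if_neg (Ne.symm hj), smul_zero]
    · intro h
      exact absurd hi h
  refine ⟨fun n => Fam r s (e n), fun n => Pool.Agent.Q83.Rst.lam r s (e n), ⟨?_, ?_⟩, ?_, A, B,
    hA, ?_⟩
  · exact hind.comp e e.injective
  · intro μ
    rw [← haa, ← root_eq hr hs k1 k2 μ]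
    have : (fun n => Fam r s (e n)) '' {j | Pool.Agent.Q83.Rst.lam r s (e j) = μ}
        = Fam r s '' {i | Pool.Agent.Q83.Rst.lam r s i = μ} := by
      ext x
      constructor
      · rintro ⟨n, hn, rfl⟩
        exact ⟨e n, hn, rfl⟩
      · rintro ⟨i, hi, rfl⟩
        exact ⟨e.symm i, by simpa using hi, by simp⟩
    rw [this]
  · intro σ
    exact schauder_of_coef κ k1 k2 (σ.trans e)
  · intro t c
    have h3 := hAB (t.map e.toEmbedding) (fun i => c (e.symm i))
    simpa using h3

end Pool.Agent.Results.MP_1ebdda_an.RieszBasis
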